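import Pool.Agent.helper65.HeatFail
import Pool.Agent.helper65.KernelExist

/-!
# Uniform PI and QL bounds do not give convergence of the heat kernels

The spaces are the lines with the densities `2 + cos (2 π (n + 1) x)`; they converge to the line
with the constant density `2`.
-/

open MeasureTheory Filter Topology Set Metric
open scoped ENNReal NNReal
open Pool.Agent.helper65.MMS

namespace Pool.Agent.Results.MP_a99579_gt.HeatKernelsFail

/-- There are metric measure spaces `X i` and `Y`, all infinitesimally Hilbertian, all PI and QL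
for the same functions and the same dilation, and a pmGH convergence `r` of `X i` to `Y`, such that
all these spaces have a heat kernel, but the heat kernels of the `X i` do not converge to the heat
kernel of `Y`. -/
theorem result : ∃ (X : ℕ → MMSpace) (Y : MMSpace) (r : Realisation X Y)
    (cv cp ch : ℝ → ℝ) (Λ : ℝ),
    (∀ R, 1 ≤ cv R ∧ 1 ≤ cp R ∧ 1 ≤ ch R) ∧ 1 ≤ Λ ∧
    (∀ i, IsIH (X i).vol ∧ IsPI (X i).vol cv cp Λ ∧ IsQL (X i).vol ch) ∧
    (IsIH Y.vol ∧ IsPI Y.vol cv cp Λ ∧ IsQL Y.vol ch) ∧
    (∀ i, ∃ p : ℝ → X i → X i → ℝ, IsHeatKernel (X i).vol p) ∧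
    (∃ q : ℝ → Y → Y → ℝ, IsHeatKernel Y.vol q) ∧
    ∀ (p : ∀ i, ℝ → X i → X i → ℝ) (q : ℝ → Y → Y → ℝ),
      (∀ i, IsHeatKernel (X i).vol (p i)) → IsHeatKernel Y.vol q → ¬ HeatKernelConv r p q := by
  refine ⟨fun n => lineSpace (osc n) (osc_isWeight n), lineSpace two two_isWeight, oscReal,
    fun _ => 6, fun _ => 6, fun _ => 18, 1, fun R => ⟨by norm_num, by norm_num, by norm_num⟩,
    le_rfl, fun i => ⟨isIH (osc_isWeight i), isPI (osc_isWeight i), isQL (osc_isWeight i)⟩,
    ⟨isIH two_isWeight, isPI two_isWeight, isQL two_isWeight⟩,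
    fun i => exists_heatKernel (osc_isWeight i), exists_heatKernel two_isWeight, ?_⟩
  intro p q hp hq hconv
  exact no_heatKernelConv p q hp hq fun t ht x y x' y' hx hy => hconv t ht x y x' y' hx hy

end Pool.Agent.Results.MP_a99579_gt.HeatKernelsFail
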