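import Pool.Agent.helper65.LineTri

/-!
# Uniform PI and QL bounds do not give Mosco convergence of the Cheeger energies

The spaces are the lines with the densities `2 + cos (2 π (n + 1) x)`; they converge to the line
with the constant density `2`.
-/

open MeasureTheory Filter Topology Set Metric
open scoped ENNReal NNReal
open Pool.Agent.helper65.MMS

namespace Pool.Agent.Results.MP_a99579_gt.MoscoFails

/-- There are metric measure spaces `X i` and `Y`, all infinitesimally Hilbertian, all PI and QL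
for the same functions and the same dilation, and a pmGH convergence `r` of `X i` to `Y` for which
the Cheeger energies do not Mosco converge; in fact the lower bound (a) fails. -/
theorem result : ∃ (X : ℕ → MMSpace) (Y : MMSpace) (r : Realisation X Y)
    (cv cp ch : ℝ → ℝ) (Λ : ℝ),
    (∀ R, 1 ≤ cv R ∧ 1 ≤ cp R ∧ 1 ≤ ch R) ∧ 1 ≤ Λ ∧
    (∀ i, IsIH (X i).vol ∧ IsPI (X i).vol cv cp Λ ∧ IsQL (X i).vol ch) ∧
    (IsIH Y.vol ∧ IsPI Y.vol cv cp Λ ∧ IsQL Y.vol ch) ∧
    (∃ (f : ∀ i, X i → ℝ) (g : Y → ℝ), StrongConv r f g ∧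
      limsup (fun i => cheeger (X i).vol (f i)) atTop < cheeger Y.vol g) ∧
    ¬ MoscoConv r := by
  have hlt : limsup (fun i => cheeger (wm (osc i)) (fosc i)) atTop < cheeger (wm two) tri := by
    refine lt_of_le_of_lt ?_ (lt_of_lt_of_le ?_ le_cheeger_tri) (b := 7 / 4)
    · refine (limsup_le_limsup (v := fun _ : ℕ => 7 / 4)
        (Eventually.of_forall fun n => fosc_cheeger_le n)).trans (le_of_eq (limsup_const _))
    · rw [ENNReal.div_lt_iff (by norm_num) (by norm_num), show (7 : ℝ≥0∞) = ENNReal.ofReal 7 by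
        norm_num, show (4 : ℝ≥0∞) = ENNReal.ofReal 4 by norm_num, ← ENNReal.ofReal_mul (by norm_num)]
      exact (ENNReal.ofReal_lt_ofReal_iff (by norm_num)).2 (by norm_num)
  refine ⟨fun n => lineSpace (osc n) (osc_isWeight n), lineSpace two two_isWeight, oscReal,
    fun _ => 6, fun _ => 6, fun _ => 18, 1, fun R => ⟨by norm_num, by norm_num, by norm_num⟩,
    le_rfl, fun i => ⟨isIH (osc_isWeight i), isPI (osc_isWeight i), isQL (osc_isWeight i)⟩,
    ⟨isIH two_isWeight, isPI two_isWeight, isQL two_isWeight⟩,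
    ⟨fun n => fosc n, tri, fosc_strongConv, hlt⟩, ?_⟩
  intro hM
  have h1 := hM.1 (fun n => fosc n) tri fosc_weakConv
  exact absurd (h1.trans (liminf_le_limsup)) (not_le.2 hlt)

end Pool.Agent.Results.MP_a99579_gt.MoscoFails
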